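import Pool.Agent.Q266.RP.Stm3

/-! JOB BP of project RP (helper266). -/

namespace Pool.Agent.Q223.RPB

open Pool.Agent.Q266.RP Module

/-- a subgroup of index `p` of a finite `p`-group is normal -/
theorem normal_of_card_mul {p : ℕ} [hp : Fact p.Prime] {G : Type} [Group G] [Finite G]
    (hG : IsPGroup p G) (H : Subgroup G) (h : Nat.card G = p * Nat.card H) : H.Normal := by
  apply Subgroup.normal_of_index_eq_minFac_card
  obtain ⟨n, hn⟩ := IsPGroup.iff_card.1 hG
  have h0 : 0 < Nat.card H := Nat.card_pos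
  have hidx : H.index = p := by
    have h1 := H.index_mul_card
    rw [h] at h1
    exact Nat.eq_of_mul_eq_mul_right h0 h1
  have hn0 : n ≠ 0 := by
    intro hn0
    rw [hn0, pow_zero, h] at hn
    have h2 := Nat.eq_one_of_mul_eq_one_right hn
    exact hp.out.one_lt.ne' h2
  rw [hidx, hn, hp.out.pow_minFac hn0]

/-- a normal subgroup of order `p` of a finite `p`-group is central -/
theorem central_of_normal {p : ℕ} [hp : Fact p.Prime] {G : Type} [Group G] [Finite G]
    (hG : IsPGroup p G) (t : G) (ht : orderOf t = p) (hN : (Subgroup.zpowers t).Normal) :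
    t ∈ Subgroup.center G := by
  have hG' : IsPGroup p (ConjAct G) := hG
  have hdiv : p ∣ Nat.card (Subgroup.zpowers t) := by
    rw [Nat.card_zpowers, ht]
  have hfix : (1 : Subgroup.zpowers t) ∈ MulAction.fixedPoints (ConjAct G) (Subgroup.zpowers t) := by
    intro g
    exact smul_one g
  obtain ⟨b, hb, hb1⟩ := hG'.exists_fixed_point_of_prime_dvd_card_of_fixed_point
    (Subgroup.zpowers t) hdiv hfix
  have hbc : (b : G) ∈ Subgroup.center G := by
    rw [Subgroup.mem_center_iff]
    intro g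
    have h1 := hb (ConjAct.toConjAct g)
    have h2 : ((ConjAct.toConjAct g • b : Subgroup.zpowers t) : G) = (b : G) := by rw [h1]
    rw [ConjAct.Subgroup.val_conj_smul, ConjAct.smul_def, ConjAct.ofConjAct_toConjAct] at h2
    rw [mul_inv_eq_iff_eq_mul] at h2
    exact h2
  have hbne : (b : G) ≠ 1 := fun h => hb1 (Subtype.ext h.symm)
  have hle : Subgroup.zpowers (b : G) ≤ Subgroup.zpowers t := by
    rw [Subgroup.zpowers_le]
    exact b.2
  have hord : orderOf (b : G) = p := by
    have h1 : orderOf (b : G) ∣ p := by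
      have h2 := Subgroup.card_dvd_of_le hle
      rwa [Nat.card_zpowers, Nat.card_zpowers, ht] at h2
    rcases (Nat.dvd_prime hp.out).1 h1 with h2 | h2
    · exact absurd (orderOf_eq_one_iff.1 h2) hbne
    · exact h2
  have heq : Subgroup.zpowers (b : G) = Subgroup.zpowers t := by
    apply Subgroup.eq_of_le_of_card_ge hle
    rw [Nat.card_zpowers, Nat.card_zpowers, ht, hord]
  have h3 : t ∈ Subgroup.zpowers (b : G) := by
    rw [heq]
    exact Subgroup.mem_zpowers t
  exact (Subgroup.zpowers_le.2 hbc) h3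

/-- in a cyclic `p`-group the solutions of `s ^ p = 1` are powers of `y ^ (p ^ m)` -/
theorem mem_zpowers_of_pow {p : ℕ} [hp : Fact p.Prime] {G : Type} [Group G] (y s : G) (m : ℕ)
    (hy : orderOf y = p ^ (m + 1)) (hs : s ∈ Subgroup.zpowers y) (hsp : s ^ p = 1) :
    s ∈ Subgroup.zpowers (y ^ (p ^ m)) := by
  obtain ⟨i, hi⟩ := Subgroup.mem_zpowers_iff.1 hs
  have h1 : y ^ (i * (p : ℤ)) = 1 := by
    rw [zpow_mul, hi, zpow_natCast]
    exact hsp
  have h2 : ((orderOf y : ℕ) : ℤ) ∣ i * (p : ℤ) := orderOf_dvd_iff_zpow_eq_one.2 h1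
  rw [hy, pow_succ, Nat.cast_mul] at h2
  have hp0 : (p : ℤ) ≠ 0 := by exact_mod_cast hp.out.ne_zero
  have h3 : ((p ^ m : ℕ) : ℤ) ∣ i := Int.dvd_of_mul_dvd_mul_right hp0 h2
  obtain ⟨j, hj⟩ := h3
  rw [Subgroup.mem_zpowers_iff]
  refine ⟨j, ?_⟩
  rw [← hi, hj, zpow_mul, zpow_natCast]

theorem bp (hOdd : S_ODDPAIR) (hStep : S_STEPB) (hSchur : S_SCHUR) (hTrz : S_TRZ) : S_BP := by
  intro p hp hp2 G V _ _ _ _ _ ρ hG hIrr hker hdim y hy hcard
  have hncomm : ¬ ∀ a b : G, a * b = b * a := by
    intro hc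
    have h1 := hSchur.2.2 G V ρ hIrr hc
    rw [hdim] at h1
    exact hp.out.one_lt.ne' h1
  have hcs : CenSmall p G := hSchur.2.1 p G V ρ hIrr hker
  obtain ⟨e, z, hez⟩ := hOdd p hp2 G hG hcs hncomm
  have hzc : z ∈ Subgroup.center G := hez.2.2.1
  have hzo : orderOf z = p := hez.2.2.2.1
  obtain ⟨ω, hω⟩ := hSchur.1 G V ρ hIrr z hzc
  have hne : ∀ t : G, t ≠ 1 → ∀ c : ℂ, (∀ v, ρ t v = c • v) → c ≠ 1 := by
    intro t ht c hc h
    apply ht
    apply hker t
    ext v
    rw [hc, h, one_smul]
    rfl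
  have hz1 : z ≠ 1 := by
    intro h
    rw [h, orderOf_one] at hzo
    exact hp.out.one_lt.ne hzo
  have hω1 : ω ≠ 1 := hne z hz1 ω hω
  obtain ⟨hyC, n, hu, hN, W, σ, hσ, hfr, hσe, htr, hcd⟩ :=
    hStep p G V ρ hIrr e z hez ω hω hω1 y hy
  -- `u = e * z ^ n` has order `p`
  have huc : e * z ^ n ∉ Subgroup.center G := by
    intro h
    apply hez.2.1
    have h1 : e = (e * z ^ n) * (z ^ n)⁻¹ := by group
    rw [h1]
    exact Subgroup.mul_mem _ h (Subgroup.inv_mem _ (Subgroup.pow_mem _ hzc n))
  have hzcomm : ∀ g : G, z * g = g * z := fun g => (Subgroup.mem_center_iff.1 hzc g).symm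
  have huo : orderOf (e * z ^ n) = p := by
    apply orderOf_eq_prime
    · have hce : Commute e (z ^ n) := by
        apply Commute.pow_right
        exact (hzcomm e).symm
      rw [hce.mul_pow, hez.1, one_mul, ← pow_mul, mul_comm n p, pow_mul, ← hzo, pow_orderOf_eq_one,
        one_pow]
    · intro h
      apply huc
      rw [h]
      exact Subgroup.one_mem _
  -- `|C| = p * |C/⟨u⟩|`
  have hCcard : Nat.card (Subgroup.centralizer ({e} : Set G)) =
      p * Nat.card (Subgroup.centralizer ({e} : Set G) ⧸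
        Subgroup.zpowers (⟨e * z ^ n, hu⟩ : Subgroup.centralizer ({e} : Set G))) := by
    rw [Subgroup.card_eq_card_quotient_mul_card_subgroup
      (Subgroup.zpowers (⟨e * z ^ n, hu⟩ : Subgroup.centralizer ({e} : Set G))),
      Nat.card_zpowers, Subgroup.orderOf_mk, huo, mul_comm]
  have hGC : Nat.card G = p * Nat.card (Subgroup.centralizer ({e} : Set G)) := by
    rw [hCcard, hcd]
    ring
  have hCy : Nat.card (Subgroup.centralizer ({e} : Set G)) = p * orderOf y := by
    have h1 : p * Nat.card (Subgroup.centralizer ({e} : Set G)) = p * (p * orderOf y) := by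
      rw [← hGC, ← hcard]
      ring
    exact Nat.eq_of_mul_eq_mul_left hp.out.pos h1
  have hCn : (Subgroup.centralizer ({e} : Set G)).Normal := normal_of_card_mul hG _ hGC
  have hYn : (Subgroup.zpowers (⟨y, hyC⟩ : Subgroup.centralizer ({e} : Set G))).Normal := by
    apply normal_of_card_mul (hG.to_subgroup _)
    rw [Nat.card_zpowers, Subgroup.orderOf_mk, hCy]
  obtain ⟨m, hm⟩ := IsPGroup.iff_orderOf.1 hG y
  rcases m with _ | m
  · -- `m = 0`
    exfalso
    apply hncomm
    have h1 : Nat.card G = p ^ 2 := by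
      rw [← hcard, hm, pow_zero, one_mul]
    have := IsPGroup.isMulCommutative_of_card_eq_prime_sq h1
    exact this.is_comm.comm
  rcases m with _ | m
  · -- `m = 1`
    refine ⟨1, ?_, ?_⟩
    · rw [pow_one]
      by_contra hyc
      have hzn : (Subgroup.zpowers z).Normal := by
        constructor
        intro a ha g
        obtain ⟨i, hi⟩ := Subgroup.mem_zpowers_iff.1 ha
        have hac : a ∈ Subgroup.center G := by
          rw [← hi]
          exact Subgroup.zpow_mem _ hzc i
        have h4 : g * a * g⁻¹ = a := by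
          rw [(Subgroup.mem_center_iff.1 hac g)]
          group
        rw [h4]
        exact ha
      have hq : Nat.card (G ⧸ Subgroup.zpowers z) = p ^ 2 := by
        have h1 := Subgroup.card_eq_card_quotient_mul_card_subgroup (Subgroup.zpowers z)
        rw [Nat.card_zpowers, hzo, ← hcard, hm] at h1
        have h2 : Nat.card (G ⧸ Subgroup.zpowers z) * p = p ^ 2 * p := by
          rw [← h1]
          ring
        exact Nat.eq_of_mul_eq_mul_right hp.out.pos h2
      have hqc := IsPGroup.isMulCommutative_of_card_eq_prime_sq hq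
      rw [Subgroup.mem_center_iff] at hyc
      push Not at hyc
      obtain ⟨g, hg⟩ := hyc
      have ht : y⁻¹ * (g * y * g⁻¹) ∈ Subgroup.zpowers z := by
        rw [← QuotientGroup.eq_one_iff]
        have h1 : ((y⁻¹ * (g * y * g⁻¹) : G) : G ⧸ Subgroup.zpowers z) =
            (y : G ⧸ Subgroup.zpowers z)⁻¹ * ((g : G ⧸ Subgroup.zpowers z) *
              (y : G ⧸ Subgroup.zpowers z) * (g : G ⧸ Subgroup.zpowers z)⁻¹) := rfl
        rw [h1, hqc.is_comm.comm (g : G ⧸ Subgroup.zpowers z) (y : G ⧸ Subgroup.zpowers z)]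
        group
      have htc : y⁻¹ * (g * y * g⁻¹) ∈ Subgroup.center G := (Subgroup.zpowers_le.2 hzc) ht
      have ht1 : y⁻¹ * (g * y * g⁻¹) ≠ 1 := by
        intro h
        apply hg
        have h2 : g * y * g⁻¹ = y := by
          rw [inv_mul_eq_one] at h
          exact h.symm
        rwa [mul_inv_eq_iff_eq_mul] at h2
      obtain ⟨c, hc⟩ := hSchur.1 G V ρ hIrr _ htc
      exact hy (hTrz G V ρ y g _ c hc (hne _ ht1 c hc) (by group))
    · rw [pow_one]
      intro h
      rw [h, orderOf_one, zero_add, pow_one] at hm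
      exact hp.out.one_lt.ne hm
  · -- `m ≥ 2`
    refine ⟨p ^ (m + 1), ?_, ?_⟩
    · have hto : orderOf (y ^ (p ^ (m + 1))) = p := by
        rw [orderOf_pow, hm, pow_succ p (m + 1), Nat.gcd_eq_right (Dvd.intro _ rfl),
          Nat.mul_div_cancel_left _ (Nat.pow_pos hp.out.pos)]
      apply central_of_normal hG _ hto
      constructor
      intro a ha g
      obtain ⟨i, hi⟩ := Subgroup.mem_zpowers_iff.1 ha
      have hgen : g * y ^ (p ^ (m + 1)) * g⁻¹ ∈ Subgroup.zpowers (y ^ (p ^ (m + 1))) := by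
        apply mem_zpowers_of_pow y _ (m + 1) hm
        · have hy' : g * y * g⁻¹ ∈ Subgroup.centralizer ({e} : Set G) := hCn.conj_mem y hyC g
          have h1 := Subgroup.pow_index_mem
            (Subgroup.zpowers (⟨y, hyC⟩ : Subgroup.centralizer ({e} : Set G))) ⟨_, hy'⟩
          have hidx : (Subgroup.zpowers
              (⟨y, hyC⟩ : Subgroup.centralizer ({e} : Set G))).index = p := by
            have h2 := (Subgroup.zpowers
              (⟨y, hyC⟩ : Subgroup.centralizer ({e} : Set G))).index_mul_card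
            rw [hCy, Nat.card_zpowers, Subgroup.orderOf_mk] at h2
            exact Nat.eq_of_mul_eq_mul_right (orderOf_pos y) h2
          rw [hidx] at h1
          obtain ⟨j, hj⟩ := Subgroup.mem_zpowers_iff.1 h1
          have hj' : y ^ j = (g * y * g⁻¹) ^ p := by
            have := congrArg Subtype.val hj
            simpa using this
          have h3 : g * y ^ (p ^ (m + 1)) * g⁻¹ = (y ^ j) ^ (p ^ m) := by
            rw [hj', ← pow_mul, ← pow_succ', conj_pow]
          rw [h3]
          exact Subgroup.pow_mem _ (Subgroup.zpow_mem _ (Subgroup.mem_zpowers y) j) _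
        · rw [conj_pow, ← pow_mul, ← pow_succ, ← hm, pow_orderOf_eq_one]
          group
      have h5 : g * a * g⁻¹ = (g * y ^ (p ^ (m + 1)) * g⁻¹) ^ i := by
        rw [← hi, conj_zpow]
      rw [h5]
      exact Subgroup.zpow_mem _ hgen i
    · intro h
      have h1 := orderOf_dvd_of_pow_eq_one h
      rw [hm] at h1
      have h2 := Nat.le_of_dvd (Nat.pow_pos hp.out.pos) h1
      have h3 : p ^ (m + 1) < p ^ (m + 1 + 1) := Nat.pow_lt_pow_right hp.out.one_lt (by omega)
      omega

end Pool.Agent.Q223.RPB
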